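import Mathlib

namespace Pool.Agent.H.MP_96a9b8_gt

open Set Topology Filter

theorem coh0 {J : Type} [LinearOrder J] [WellFoundedLT J] [Nonempty J]
    (hc : ∀ a : J, (Iio a).Countable) :
    ∃ e : J → J → ℕ, (∀ a k, {x | x < a ∧ e a x ≤ k}.Finite) ∧
      ∀ a b, {x | x < a ∧ x < b ∧ e a x ≠ e b x}.Finite := by
  classical
  have h1 : ∀ a : J, ∃ b : ℕ → J, ∀ y, y < a → ∃ n, b n = y := by
    intro a
    rcases (Iio a).eq_empty_or_nonempty with h | h
    · refine ⟨fun _ => a, fun y hy => ?_⟩
      have : y ∈ Iio a := hy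
      rw [h] at this
      exact this.elim
    · obtain ⟨f, hf⟩ := (hc a).exists_eq_range h
      refine ⟨f, fun y hy => ?_⟩
      have : y ∈ Iio a := hy
      rw [hf] at this
      exact this
  choose b hb using h1
  obtain ⟨e, he⟩ : ∃ e : J → J → ℕ, ∀ a x, e a x =
      if h : ∃ n, x < b a n ∧ b a n < a then max (Nat.find h) (e (b a (Nat.find h)) x) else 0 := by
    refine ⟨WellFoundedLT.fix (fun a prev x => if h : ∃ n, x < b a n ∧ b a n < a then
      max (Nat.find h) (prev (b a (Nat.find h)) (Nat.find_spec h).2 x) else 0), fun a x => ?_⟩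
    rw [WellFoundedLT.fix_eq]
  have hft : ∀ a k, {x | x < a ∧ e a x ≤ k}.Finite := by
    intro a
    induction a using WellFoundedLT.induction with
    | ind a ih =>
      intro k
      have s1 : {x | x < a ∧ ¬ ∃ n, x < b a n ∧ b a n < a}.Subsingleton := by
        intro x hx y hy
        by_contra hne
        rcases lt_or_gt_of_ne hne with h | h
        · obtain ⟨n, hn⟩ := hb a y hy.1
          exact hx.2 ⟨n, hn ▸ h, hn ▸ hy.1⟩
        · obtain ⟨n, hn⟩ := hb a x hx.1
          exact hy.2 ⟨n, hn ▸ h, hn ▸ hx.1⟩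
      have s2 : (⋃ n ∈ Iic k, {x | b a n < a ∧ x < b a n ∧ e (b a n) x ≤ k}).Finite := by
        refine (finite_Iic k).biUnion fun n _ => ?_
        by_cases h : b a n < a
        · exact (ih _ h k).subset fun x hx => hx.2
        · exact finite_empty.subset fun x hx => h hx.1
      refine (s1.finite.union s2).subset fun x hx => ?_
      by_cases h : ∃ n, x < b a n ∧ b a n < a
      · right
        have h2 := hx.2
        rw [he, dif_pos h] at h2
        simp only [mem_iUnion]
        exact ⟨Nat.find h, le_trans (le_max_left _ _) h2, (Nat.find_spec h).2,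
          (Nat.find_spec h).1, le_trans (le_max_right _ _) h2⟩
      · exact Or.inl ⟨hx.1, h⟩
  have hco : ∀ a c, c < a → {x | x < a ∧ x < c ∧ e a x ≠ e c x}.Finite := by
    intro a
    induction a using WellFoundedLT.induction with
    | ind a ih =>
      intro c hca
      have ih2 : ∀ u v, u < a → v < a → {x | x < u ∧ x < v ∧ e u x ≠ e v x}.Finite := by
        intro u v hu hv
        rcases lt_trichotomy u v with h | h | h
        · exact (ih v hv u h).subset fun x hx => ⟨hx.2.1, hx.1, hx.2.2.symm⟩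
        · subst h
          exact finite_empty.subset fun x hx => hx.2.2 rfl
        · exact ih u hu v h
      obtain ⟨N, hN⟩ := hb a c hca
      have s2 : (⋃ n ∈ Iic N, ({x | x < b a n ∧ e (b a n) x ≤ n} ∪
          {x | b a n < a ∧ x < b a n ∧ x < c ∧ e (b a n) x ≠ e c x})).Finite := by
        refine (finite_Iic N).biUnion fun n _ => (hft _ _).union ?_
        by_cases h : b a n < a
        · exact (ih2 _ _ h hca).subset fun x hx => hx.2
        · exact finite_empty.subset fun x hx => h hx.1
      refine s2.subset fun x hx => ?_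
      have h : ∃ n, x < b a n ∧ b a n < a := ⟨N, hN ▸ hx.2.1, hN ▸ hca⟩
      have h2 := hx.2.2
      rw [he a, dif_pos h] at h2
      simp only [mem_iUnion]
      refine ⟨Nat.find h, Nat.find_min' h ⟨hN ▸ hx.2.1, hN ▸ hca⟩, ?_⟩
      rcases le_total (e (b a (Nat.find h)) x) (Nat.find h) with h3 | h3
      · exact Or.inl ⟨(Nat.find_spec h).1, h3⟩
      · rw [max_eq_right h3] at h2
        exact Or.inr ⟨(Nat.find_spec h).2, (Nat.find_spec h).1, hx.2.1, h2⟩
  refine ⟨e, hft, fun u v => ?_⟩
  rcases lt_trichotomy u v with h | h | h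
  · exact (hco v u h).subset fun x hx => ⟨hx.2.1, hx.1, hx.2.2.symm⟩
  · subst h
    exact finite_empty.subset fun x hx => hx.2.2 rfl
  · exact hco u v h

theorem coh {J : Type} [LinearOrder J] [WellFoundedLT J] [Nonempty J]
    (hc : ∀ a : J, (Iio a).Countable) :
    ∃ e : J → J → ℕ, (∀ a, InjOn (e a) (Iio a)) ∧
      ∀ a b, {x | x < a ∧ x < b ∧ e a x ≠ e b x}.Finite := by
  obtain ⟨e, hft, hco⟩ := coh0 hc
  refine ⟨fun a x => Nat.pair (e a x) {y | y < x ∧ e a y = e a x}.ncard, fun a => ?_,
    fun a b => ?_⟩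
  · have key : ∀ x y, x < y → y < a → e a x = e a y →
        {z | z < x ∧ e a z = e a x}.ncard < {z | z < y ∧ e a z = e a y}.ncard := by
      intro x y hxy hy h
      refine ncard_lt_ncard ⟨fun z hz => ⟨hz.1.trans hxy, hz.2.trans h⟩, fun hs => ?_⟩ ?_
      · exact lt_irrefl x (hs ⟨hxy, h⟩).1
      · exact (hft a (e a y)).subset fun z hz => ⟨hz.1.trans hy, hz.2.le⟩
    intro x hx y hy h
    simp only [Nat.pair_eq_pair] at h
    rcases lt_trichotomy x y with h1 | h1 | h1
    · exact absurd h.2 (key x y h1 hy h.1).ne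
    · exact h1
    · exact absurd h.2.symm (key y x h1 hx h.1.symm).ne
  · have s2 : (⋃ y ∈ {x | x < a ∧ x < b ∧ e a x ≠ e b x}, ({x | x < a ∧ e a x ≤ e a y} ∪
        {x | x < b ∧ e b x ≤ e b y})).Finite :=
      (hco a b).biUnion fun y _ => (hft _ _).union (hft _ _)
    refine s2.subset fun x hx => ?_
    by_contra hn
    simp only [mem_iUnion, not_exists] at hn
    have h1 : e a x = e b x := by
      by_contra h
      exact hn x ⟨hx.1, hx.2.1, h⟩ (Or.inl ⟨hx.1, le_rfl⟩)
    apply hx.2.2
    have h2 : {y | y < x ∧ e a y = e a x} = {y | y < x ∧ e b y = e b x} := by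
      ext y
      refine and_congr_right fun hy => ?_
      by_cases h : e a y = e b y
      · rw [h, h1]
      · have h3 := hn y ⟨hy.trans hx.1, hy.trans hx.2.1, h⟩
        constructor
        · intro h4
          exact absurd (Or.inl ⟨hx.1, h4.ge⟩) h3
        · intro h4
          exact absurd (Or.inr ⟨hx.2.1, h4.ge⟩) h3
    simp only
    rw [h2, h1]

theorem box_real {u v : ℝ} (h : u < v) :
    ∃ φ : ℝ → ℝ, StrictMono φ ∧ range φ = Ioo u v := by
  let e := orderIsoIooNegOneOne ℝ
  refine ⟨fun t => (u + v) / 2 + (v - u) / 2 * (e t : ℝ), fun s t hst => ?_, ?_⟩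
  · have : (e s : ℝ) < e t := e.strictMono hst
    simp only
    nlinarith
  · ext x
    constructor
    · rintro ⟨t, rfl⟩
      have := (e t).2
      constructor <;> simp only <;> nlinarith [this.1, this.2]
    · intro hx
      have hvu : 0 < v - u := by linarith
      have h1 : (2 * x - u - v) / (v - u) ∈ Ioo (-1 : ℝ) 1 := by
        constructor
        · rw [lt_div_iff₀ hvu]; linarith [hx.1]
        · rw [div_lt_iff₀ hvu]; linarith [hx.2]
      refine ⟨e.symm ⟨_, h1⟩, ?_⟩
      simp only [OrderIso.apply_symm_apply]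
      field_simp
      ring

theorem openEmb_of_range {Y : Type} [LinearOrder Y] [TopologicalSpace Y] [OrderTopology Y]
    {φ : ℝ → Y} {u v : Y} (h1 : StrictMono φ) (h2 : range φ = Ioo u v) : IsOpenEmbedding φ :=
  ⟨h1.isEmbedding_of_ordConnected (h2 ▸ ordConnected_Ioo), h2 ▸ isOpen_Ioo⟩

theorem lr_lt {O : Type} [LinearOrder O] (x y : O ×ₗ Ico (0 : ℝ) 1) :
    x < y ↔ (ofLex x).1 < (ofLex y).1 ∨
      ((ofLex x).1 = (ofLex y).1 ∧ ((ofLex x).2 : ℝ) < (ofLex y).2) :=
  Prod.Lex.lt_iff

theorem lr_F {O : Type} [LinearOrder O] [WellFoundedLT O] (a : O) (hc : (Iio a).Countable) :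
    ∃ F : O ×ₗ Ico (0 : ℝ) 1 → ℝ, StrictMonoOn F {x | (ofLex x).1 < a} ∧
      ∀ x y u, (ofLex y).1 < a → F x < u → u < F y → ∃ z, (ofLex z).1 < a ∧ F z = u := by
  classical
  obtain ⟨enc, henc⟩ := countable_iff_exists_injOn.1 hc
  let w : O → ℝ := fun h => if h < a then (1 / 2 : ℝ) ^ enc h else 0
  have w0 : ∀ h, 0 ≤ w h := fun h => by
    simp only [w]
    split_ifs <;> positivity
  have wp : ∀ h, h < a → 0 < w h := fun h hh => by
    simp only [w, if_pos hh]
    positivity
  have ws : Summable w := by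
    have h1 : Summable (fun h : Iio a => (1 / 2 : ℝ) ^ enc h) :=
      summable_geometric_two.comp_injective (henc.injective)
    have h2 : w = (Iio a).indicator (fun h => (1 / 2 : ℝ) ^ enc h) := by
      funext h
      simp only [w, indicator, mem_Iio]
    rw [h2]
    exact summable_subtype_iff_indicator.1 h1
  let f : O → ℝ := fun g => ∑' h, (Iio g).indicator w h
  have fs : ∀ s : Set O, Summable (s.indicator w) := fun s => ws.indicator s
  have f0 : ∀ g, 0 ≤ f g := fun g => tsum_nonneg fun h => indicator_nonneg (fun h _ => w0 h) h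
  have fw : ∀ g, f g + w g = ∑' h, (Iic g).indicator w h := by
    intro g
    have h1 : (Iic g).indicator w = fun h => (Iio g).indicator w h + ({g} : Set O).indicator w h := by
      funext h
      rw [← Iio_union_right, indicator_union_of_disjoint (by simp)]
    rw [h1, Summable.tsum_add (fs _) (fs _)]
    congr 1
    rw [tsum_eq_single g]
    · simp
    · intro h hh
      exact indicator_of_notMem (by simpa using hh) _
  have fm : ∀ g h, g < h → f g + w g ≤ f h := by
    intro g h hgh
    rw [fw]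
    refine Summable.tsum_le_tsum (fun k => ?_) (fs _) (fs _)
    exact indicator_le_indicator_of_subset (fun k hk => lt_of_le_of_lt hk hgh) (fun k => w0 k) k
  refine ⟨fun x => f (ofLex x).1 + (ofLex x).2 * w (ofLex x).1, ?_, ?_⟩
  · intro x hx y hy hxy
    rcases (lr_lt x y).1 hxy with h | h
    · have := fm _ _ h
      have h1 := wp _ hx
      have h2 := mul_nonneg (ofLex y).2.2.1 (w0 (ofLex y).1)
      have h3 := (ofLex x).2.2.2
      simp only
      nlinarith
    · simp only [h.1]
      have h1 := wp _ hy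
      nlinarith [h.2]
  · intro x y u hy hxu huy
    have hu0 : 0 ≤ u := by
      have h2 := mul_nonneg (ofLex x).2.2.1 (w0 (ofLex x).1)
      have := f0 (ofLex x).1
      simp only at hxu
      linarith
    have hne : {g | g < a ∧ u < f g + w g}.Nonempty := by
      refine ⟨(ofLex y).1, hy, ?_⟩
      have h1 := w0 (ofLex y).1
      have h3 := (ofLex y).2.2.2
      simp only at huy
      nlinarith
    obtain ⟨g, hg, hmin⟩ := (wellFounded_lt (α := O)).has_min _ hne
    have hfg : f g ≤ u := by
      refine (fs _).tsum_le_of_sum_le fun s => ?_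
      rcases (s.filter (· < g)).eq_empty_or_nonempty with h | h
      · refine le_trans (le_of_eq (Finset.sum_eq_zero fun k hk => indicator_of_notMem ?_ _)) hu0
        intro hk2
        have : k ∈ s.filter (· < g) := Finset.mem_filter.2 ⟨hk, hk2⟩
        rw [h] at this
        simp at this
      · obtain ⟨m, hm, hmax⟩ := Finset.exists_max_image _ id h
        have hm2 := (Finset.mem_filter.1 hm).2
        have h4 : f m + w m ≤ u := by
          by_contra h5
          exact hmin m ⟨hm2.trans hg.1, not_le.1 h5⟩ hm2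
        refine le_trans ?_ h4
        rw [fw]
        refine le_trans (Finset.sum_le_sum fun k hk => ?_)
          ((fs (Iic m)).sum_le_tsum s fun k _ => indicator_nonneg (fun h _ => w0 h) k)
        by_cases h6 : k < g
        · have : k ≤ m := hmax k (Finset.mem_filter.2 ⟨hk, h6⟩)
          rw [indicator_of_mem (show k ∈ Iio g from h6), indicator_of_mem (show k ∈ Iic m from this)]
        · rw [indicator_of_notMem (show k ∉ Iio g from h6)]
          exact indicator_nonneg (fun h _ => w0 h) k
    have hw := wp g hg.1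
    refine ⟨toLex (g, ⟨(u - f g) / w g, div_nonneg (by linarith) hw.le, ?_⟩), hg.1, ?_⟩
    · rw [div_lt_one hw]
      linarith [hg.2]
    · simp only [ofLex_toLex]
      field_simp
      ring

theorem lr_box {O : Type} [LinearOrder O] [WellFoundedLT O] [NoMaxOrder O]
    (hc : ∀ a : O, (Iio a).Countable) {y0 y1 : O ×ₗ Ico (0 : ℝ) 1} (h : y0 < y1) :
    ∃ G : ℝ → O ×ₗ Ico (0 : ℝ) 1, StrictMono G ∧ range G = Ioo y0 y1 := by
  obtain ⟨a, ha⟩ := exists_gt (ofLex y1).1
  obtain ⟨F, hF, hs⟩ := lr_F a (hc a)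
  have hle : ∀ x : O ×ₗ Ico (0 : ℝ) 1, x < y1 → (ofLex x).1 < a := by
    intro x hx
    rcases (lr_lt _ _).1 hx with h1 | h1
    · exact h1.trans ha
    · exact h1.1 ▸ ha
  obtain ⟨φ, hφ, hr⟩ := box_real (hF (hle _ h) ha h)
  have hφ2 : ∀ t, φ t ∈ Ioo (F y0) (F y1) := fun t => hr ▸ mem_range_self t
  choose G hG1 hG2 using fun t => hs y0 y1 (φ t) ha (hφ2 t).1 (hφ2 t).2
  refine ⟨G, fun s t hst => ?_, ?_⟩
  · rw [← hF.lt_iff_lt (hG1 s) (hG1 t), hG2, hG2]
    exact hφ hst
  · ext x
    constructor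
    · rintro ⟨t, rfl⟩
      constructor
      · rw [← hF.lt_iff_lt (hle _ h) (hG1 t), hG2]
        exact (hφ2 t).1
      · rw [← hF.lt_iff_lt (hG1 t) ha, hG2]
        exact (hφ2 t).2
    · intro hx
      have h1 : F x ∈ range φ := by
        rw [hr]
        exact ⟨hF (hle _ h) (hle _ hx.2) hx.1, hF (hle _ hx.2) ha hx.2⟩
      obtain ⟨t, ht⟩ := h1
      exact ⟨t, hF.injOn (hG1 t) (hle _ hx.2) (by rw [hG2, ht])⟩

theorem lr_emb {O : Type} [LinearOrder O] [WellFoundedLT O] [TopologicalSpace O] [OrderTopology O]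
    [TopologicalSpace (O ×ₗ Ico (0 : ℝ) 1)] [OrderTopology (O ×ₗ Ico (0 : ℝ) 1)] :
    IsEmbedding (fun g : O => (toLex (g, ⟨0, le_rfl, one_pos⟩) : O ×ₗ Ico (0 : ℝ) 1)) := by
  have hlt : ∀ g h : O, (toLex (g, ⟨0, le_rfl, one_pos⟩) : O ×ₗ Ico (0 : ℝ) 1) <
      toLex (h, ⟨0, le_rfl, one_pos⟩) ↔ g < h := by
    intro g h
    rw [lr_lt]
    simp
  have hcont : Continuous (fun g : O =>
      (toLex (g, ⟨0, le_rfl, one_pos⟩) : O ×ₗ Ico (0 : ℝ) 1)) := by
    rw [OrderTopology.continuous_iff]
    intro b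
    constructor
    · have : (fun g : O => (toLex (g, ⟨0, le_rfl, one_pos⟩) : O ×ₗ Ico (0 : ℝ) 1)) ⁻¹' Ioi b =
          Ioi (ofLex b).1 := by
        ext g
        simp only [mem_preimage, mem_Ioi, lr_lt, ofLex_toLex]
        constructor
        · rintro (h | h)
          · exact h
          · exact absurd h.2 (not_lt.2 (ofLex b).2.2.1)
        · exact Or.inl
      rw [this]
      exact isOpen_Ioi
    · by_cases h : ∃ g : O, b ≤ toLex (g, ⟨0, le_rfl, one_pos⟩)
      · obtain ⟨g, hg, hmin⟩ := (wellFounded_lt (α := O)).has_min {g : O | b ≤ toLex (g, ⟨0, le_rfl, one_pos⟩)} h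
        have : (fun g : O => (toLex (g, ⟨0, le_rfl, one_pos⟩) : O ×ₗ Ico (0 : ℝ) 1)) ⁻¹' Iio b =
            Iio g := by
          ext k
          simp only [mem_preimage, mem_Iio]
          constructor
          · intro hk
            exact (hlt _ _).1 (lt_of_lt_of_le hk hg)
          · intro hk
            by_contra h2
            exact hmin k (not_lt.1 h2) hk
        rw [this]
        exact isOpen_Iio
      · have : (fun g : O => (toLex (g, ⟨0, le_rfl, one_pos⟩) : O ×ₗ Ico (0 : ℝ) 1)) ⁻¹' Iio b =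
            univ := by
          refine eq_univ_of_forall fun k => ?_
          by_contra h2
          exact h ⟨k, not_lt.1 h2⟩
        rw [this]
        exact isOpen_univ
  refine ⟨⟨le_antisymm hcont.le_induced ?_⟩, fun g h hgh => congrArg (fun x => (ofLex x).1) hgh⟩
  rw [OrderTopology.topology_eq_generate_intervals (α := O)]
  refine le_generateFrom ?_
  rintro s ⟨g, rfl | rfl⟩
  · exact isOpen_induced_iff.2 ⟨Ioi (toLex (g, ⟨0, le_rfl, one_pos⟩)), isOpen_Ioi,
      Set.ext fun k => hlt g k⟩
  · exact isOpen_induced_iff.2 ⟨Iio (toLex (g, ⟨0, le_rfl, one_pos⟩)), isOpen_Iio,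
      Set.ext fun k => hlt k g⟩

end Pool.Agent.H.MP_96a9b8_gt
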