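import Mathlib

namespace Pool.Agent.H.MP_96a9b8_gt

open Set Topology Filter Cardinal

def LE2 {M : Type} [TopologicalSpace M] (p : M) : Prop :=
  ∃ e : ℝ × ℝ → M, IsOpenEmbedding e ∧ p ∈ range e

def Rel {X S : Type} [TopologicalSpace X] (p q : (X ↪ S) × X) : Prop :=
  ∃ s : OpenPartialHomeomorph X X, p.2 ∈ s.source ∧ s p.2 = q.2 ∧
    ∀ x ∈ s.source, q.1 (s x) = p.1 x

def NS {M : Type} [TopologicalSpace M] (y z : M) : Prop :=
  y ≠ z ∧ ∀ U V : Set M, IsOpen U → IsOpen V → y ∈ U → z ∈ V → (U ∩ V).Nonempty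

theorem LE2.map {M N : Type} [TopologicalSpace M] [TopologicalSpace N] {p : M} (h : LE2 p)
    {f : M → N} (hf : IsOpenEmbedding f) : LE2 (f p) := by
  obtain ⟨e, he, u, rfl⟩ := h
  exact ⟨f ∘ e, hf.comp he, u, rfl⟩

def relSetoid (X S : Type) [TopologicalSpace X] : Setoid ((X ↪ S) × X) where
  r := Rel
  iseqv := by
    refine ⟨fun p => ⟨OpenPartialHomeomorph.refl X, mem_univ _, rfl, fun _ _ => rfl⟩, ?_, ?_⟩
    · rintro p q ⟨s, h1, h2, h3⟩
      refine ⟨s.symm, h2 ▸ s.map_source h1, by rw [← h2, s.left_inv h1], fun y hy => ?_⟩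
      rw [← h3 _ (s.map_target hy), s.right_inv hy]
    · rintro p q r ⟨s, h1, h2, h3⟩ ⟨t, k1, k2, k3⟩
      refine ⟨s.trans t, ⟨h1, show s p.2 ∈ t.source from h2 ▸ k1⟩, ?_, fun x hx => ?_⟩
      · rw [OpenPartialHomeomorph.trans_apply, h2, k2]
      · exact (k3 (s x) hx.2).trans (h3 x hx.1)

theorem loc_of_LE2 {X M : Type} [TopologicalSpace X] [TopologicalSpace M] {φ : X → M}
    (hφ : IsOpenEmbedding φ) {x : X} (h : LE2 (φ x)) :
    ∃ c : OpenPartialHomeomorph X (ℝ × ℝ), x ∈ c.source := by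
  obtain ⟨e, he, hx⟩ := h
  have : Nonempty X := ⟨x⟩
  refine ⟨(hφ.toOpenPartialHomeomorph φ).trans (he.toOpenPartialHomeomorph e).symm, ?_⟩
  simpa using hx

theorem hom {X S : Type} [TopologicalSpace X] (hS : #X < #S) :
    ∃ (M : Type) (_ : TopologicalSpace M) (ψ : (X ↪ S) → X → M),
      (∀ G, IsOpenEmbedding (ψ G)) ∧ (∀ G H x y, ψ G x = ψ H y ↔ Rel (G, x) (H, y)) ∧
      ∀ p q : M, LE2 p → LE2 q → ∃ h : M ≃ₜ M, h p = q := by
  classical
  let M := Quotient (relSetoid X S)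
  let ψ : (X ↪ S) → X → M := fun G x => Quotient.mk _ (G, x)
  have hψ : ∀ G H x y, ψ G x = ψ H y ↔ Rel (G, x) (H, y) := fun G H x y => Quotient.eq
  letI τ : TopologicalSpace M := ⨆ G, TopologicalSpace.coinduced (ψ G) inferInstance
  have hopen : ∀ U : Set M, IsOpen U ↔ ∀ G, IsOpen (ψ G ⁻¹' U) := fun U => isOpen_iSup_iff
  have hcont : ∀ G, Continuous (ψ G) := fun G => continuous_def.2 fun U hU => (hopen U).1 hU G
  have hemb : ∀ G, IsOpenEmbedding (ψ G) := by
    intro G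
    refine IsOpenEmbedding.of_continuous_injective_isOpenMap (hcont G) ?_ ?_
    · intro x y hxy
      obtain ⟨s, h1, h2, h3⟩ := (hψ _ _ _ _).1 hxy
      have := h3 _ h1
      simp only at this h2
      rw [h2] at this
      exact (G.injective this).symm
    · intro V hV
      rw [hopen]
      intro H
      rw [isOpen_iff_forall_mem_open]
      rintro y ⟨x, hx, hxy⟩
      obtain ⟨s, h1, h2, h3⟩ := (hψ _ _ _ _).1 hxy
      simp only at h1 h2 h3
      refine ⟨s.target ∩ s.symm ⁻¹' V, ?_, s.isOpen_inter_preimage_symm hV, h2 ▸ s.map_source h1, ?_⟩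
      · intro y' hy'
        exact ⟨s.symm y', hy'.2, (hψ _ _ _ _).2 ⟨s, s.map_target hy'.1, s.right_inv hy'.1, h3⟩⟩
      · rw [mem_preimage, ← h2, s.left_inv h1]
        exact hx
  let act : Equiv.Perm S → M → M := fun k =>
    Quotient.map (fun p => (p.1.trans k.toEmbedding, p.2)) (by
      rintro p q ⟨s, h1, h2, h3⟩
      exact ⟨s, h1, h2, fun x hx => congrArg k (h3 x hx)⟩)
  have hact : ∀ k G x, act k (ψ G x) = ψ (G.trans k.toEmbedding) x := fun k G x => rfl
  have actc : ∀ k, Continuous (act k) := by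
    intro k
    refine continuous_def.2 fun U hU => (hopen _).2 fun G => ?_
    exact (hopen U).1 hU (G.trans k.toEmbedding)
  have actinv : ∀ (k : Equiv.Perm S) p, act k.symm (act k p) = p := by
    intro k p
    induction p using Quotient.inductionOn with
    | h p =>
      obtain ⟨G, x⟩ := p
      change act k.symm (act k (ψ G x)) = ψ G x
      rw [hact, hact]
      congr 1
      ext t
      simp
  refine ⟨M, τ, ψ, hemb, hψ, fun p q hp hq => ?_⟩
  induction p using Quotient.inductionOn with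
  | h p =>
  induction q using Quotient.inductionOn with
  | h q =>
  obtain ⟨G, x⟩ := p
  obtain ⟨H, y⟩ := q
  obtain ⟨c, hc⟩ := loc_of_LE2 (hemb G) hp
  obtain ⟨d, hd⟩ := loc_of_LE2 (hemb H) hq
  obtain ⟨s, hs1, hs2⟩ : ∃ s : OpenPartialHomeomorph X X, x ∈ s.source ∧ s x = y := by
    refine ⟨c.trans ((Homeomorph.addRight (d y - c x)).toOpenPartialHomeomorph.trans d.symm),
      ?_, ?_⟩
    · simp [hc, d.map_source hd]
    · simp [d.left_inv hd]
  have : Nonempty X := ⟨x⟩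
  have hinv : ∀ x, Function.invFun G (G x) = x := Function.leftInverse_invFun G.injective
  let f : (G '' s.source) ↪ S := ⟨fun t => H (s (Function.invFun G t)), by
    rintro ⟨_, a, ha, rfl⟩ ⟨_, b, hb, rfl⟩ hab
    simp only [hinv] at hab
    have := s.injOn ha hb (H.injective hab)
    subst this
    rfl⟩
  obtain ⟨k, hk⟩ := Cardinal.extend_function_of_lt f
    (lt_of_le_of_lt (Cardinal.mk_image_le.trans (Cardinal.mk_set_le _)) hS) ⟨Equiv.refl S⟩
  refine ⟨⟨⟨act k, act k.symm, actinv k, actinv k.symm⟩, actc k, actc k.symm⟩, ?_⟩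
  change act k (ψ G x) = ψ H y
  rw [hact, hψ]
  refine ⟨s, hs1, hs2, fun x' hx' => ?_⟩
  have := hk ⟨G x', x', hx', rfl⟩
  change k (G x') = H (s (Function.invFun G (G x'))) at this
  rw [hinv] at this
  exact this.symm

theorem comp {M : Type} [TopologicalSpace M]
    (hh : ∀ p q : M, LE2 p → LE2 q → ∃ h : M ≃ₜ M, h p = q) (z : M) (hz : LE2 z)
    {Y : Type} [TopologicalSpace Y] [Nonempty Y] (f : Y → M) (hf : IsEmbedding f)
    (hle : ∀ y, LE2 (f y)) (hns : ∀ y, NS (f y) z) :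
    ∃ (C : Type) (_ : TopologicalSpace C), ConnectedSpace C ∧
      (∀ x : C, ∃ U : Set C, IsOpen U ∧ x ∈ U ∧ Nonempty (U ≃ₜ EuclideanSpace ℝ (Fin 2))) ∧
      ¬ T2Space C ∧ (∀ x y : C, ∃ h : C ≃ₜ C, h x = y) ∧
      ∀ w : C, ∃ g : Y → C, IsEmbedding g ∧ ∀ y, NS (g y) w := by
  let E : Set M := {p | LE2 p}
  let C := connectedComponentIn E z
  have hzC : z ∈ C := mem_connectedComponentIn hz
  have K1 : ∀ e : ℝ × ℝ → M, IsOpenEmbedding e → ∀ p ∈ C, p ∈ range e → range e ⊆ C := by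
    intro e he p hp hpe
    have h1 : IsPreconnected (range e) := isPreconnected_range he.continuous
    have h2 : range e ⊆ connectedComponentIn E p :=
      h1.subset_connectedComponentIn hpe fun q hq => ⟨e, he, hq⟩
    rwa [← connectedComponentIn_eq hp] at h2
  have hCE : C ⊆ E := connectedComponentIn_subset _ _
  have hCo : IsOpen C := by
    rw [isOpen_iff_forall_mem_open]
    intro p hp
    obtain ⟨e, he, hpe⟩ := hCE hp
    exact ⟨range e, K1 e he p hp hpe, he.isOpen_range, hpe⟩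
  have hfC : ∀ y, f y ∈ C := by
    intro y
    obtain ⟨e, he, hpe⟩ := hle y
    obtain ⟨p, hp1, hp2⟩ := (hns y).2 _ _ he.isOpen_range hCo hpe hzC
    exact K1 e he p hp2 hp1 hpe
  have hhom : ∀ x y : C, ∃ h : C ≃ₜ C, h x = y := by
    intro x y
    obtain ⟨h, hxy⟩ := hh x y (hCE x.2) (hCE y.2)
    have h1 : h '' E = E := by
      ext p
      constructor
      · rintro ⟨q, hq, rfl⟩
        exact LE2.map hq h.isOpenEmbedding
      · intro hp
        exact ⟨h.symm p, LE2.map hp h.symm.isOpenEmbedding, h.apply_symm_apply p⟩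
    have h2 := h.image_connectedComponentIn (hCE x.2)
    rw [h1, hxy, ← connectedComponentIn_eq x.2, ← connectedComponentIn_eq y.2] at h2
    refine ⟨h.sets (s := C) (t := C) ?_, Subtype.ext hxy⟩
    nth_rewrite 2 [← show h '' C = C from h2]
    rw [h.preimage_image]
  have hg : ∀ y, NS (⟨f y, hfC y⟩ : C) ⟨z, hzC⟩ := by
    intro y
    refine ⟨fun h => (hns y).1 (congrArg Subtype.val h), fun U V hU hV hyU hzV => ?_⟩
    obtain ⟨p, ⟨a, ha, rfl⟩, b, hb, hab⟩ := (hns y).2 _ _ (hCo.isOpenMap_subtype_val U hU)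
      (hCo.isOpenMap_subtype_val V hV) ⟨_, hyU, rfl⟩ ⟨_, hzV, rfl⟩
    exact ⟨a, ha, Subtype.ext hab ▸ hb⟩
  refine ⟨C, inferInstance, isConnected_iff_connectedSpace.1 (isConnected_connectedComponentIn_iff.2 hz),
    fun x => ?_, fun hT => ?_, hhom, fun w => ?_⟩
  · obtain ⟨e, he, hpe⟩ := hCE x.2
    have h1 : ∀ u, e u ∈ C := fun u => K1 e he x x.2 hpe ⟨u, rfl⟩
    refine ⟨range (C.codRestrict e h1), ?_, ?_, ⟨?_⟩⟩
    · rw [range_codRestrict]
      exact he.isOpen_range.preimage continuous_subtype_val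
    · rw [range_codRestrict]
      exact hpe
    · exact (he.isEmbedding.codRestrict C h1).toHomeomorph.symm.trans
        (Homeomorph.finTwoArrow.symm.trans (EuclideanSpace.equiv (Fin 2) ℝ).toHomeomorph.symm)
  · obtain ⟨y⟩ := ‹Nonempty Y›
    obtain ⟨U, V, hU, hV, h1, h2, h3⟩ := t2_separation (hg y).1
    exact ((hg y).2 U V hU hV h1 h2).not_disjoint h3
  · obtain ⟨h, hw⟩ := hhom ⟨z, hzC⟩ w
    refine ⟨h ∘ C.codRestrict f hfC, h.isEmbedding.comp (hf.codRestrict C hfC), fun y => ?_⟩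
    rw [← hw]
    refine ⟨fun h1 => (hg y).1 (h.injective h1), fun U V hU hV h1 h2 => ?_⟩
    obtain ⟨p, hp⟩ := (hg y).2 (h ⁻¹' U) (h ⁻¹' V) (hU.preimage h.continuous)
      (hV.preimage h.continuous) h1 h2
    exact ⟨h p, hp⟩

end Pool.Agent.H.MP_96a9b8_gt
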