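import Pool.Agent.H.MP_96a9b8_gt.A
import Pool.Agent.H.MP_96a9b8_gt.B

namespace Pool.Agent.H.MP_96a9b8_gt

open Set Topology Filter Cardinal

noncomputable def cc (k : ℕ) : ℝ := 1 / ((k : ℝ) + 1)

theorem cc_pos (k : ℕ) : 0 < cc k := Nat.one_div_pos_of_nat

theorem cc_anti {k l : ℕ} (h : k ≤ l) : cc l ≤ cc k := Nat.one_div_le_one_div h

theorem cc_lt (k : ℕ) : cc (k + 1) < cc k := Nat.one_div_lt_one_div (Nat.lt_succ_self k)

theorem cc_lt_one (k : ℕ) : cc (k + 1) < 1 := by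
  have h1 := cc_lt 0
  have h2 := cc_anti (show 0 + 1 ≤ k + 1 by omega)
  have h3 : cc 0 = 1 := by simp [cc]
  linarith

theorem cc_small {ε : ℝ} (h : 0 < ε) : ∃ N, ∀ k, N ≤ k → cc k < ε := by
  obtain ⟨N, hN⟩ := exists_nat_one_div_lt h
  exact ⟨N, fun k hk => lt_of_le_of_lt (cc_anti hk) hN⟩

theorem cc_disj {k l : ℕ} {t : ℝ} (h1 : t ∈ Ioo (cc (k + 1)) (cc k))
    (h2 : t ∈ Ioo (cc (l + 1)) (cc l)) : k = l := by
  rcases lt_trichotomy k l with h | h | h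
  · have := cc_anti (show k + 1 ≤ l from h)
    linarith [h1.1, h2.2]
  · exact h
  · have := cc_anti (show l + 1 ≤ k from h)
    linarith [h1.2, h2.1]

theorem exP {O : Type} [LinearOrder O] [WellFoundedLT O] [NoMaxOrder O]
    (hc : ∀ a : O, (Iio a).Countable)
    [TopologicalSpace (O ×ₗ Ico (0 : ℝ) 1)] [OrderTopology (O ×ₗ Ico (0 : ℝ) 1)] :
    ∃ P : O × ℕ → ℝ × ℝ → (O ×ₗ Ico (0 : ℝ) 1) × ℝ, (∀ i, IsOpenEmbedding (P i)) ∧
      (∀ i u, (ofLex (P i u).1).1 = i.1 ∧ (P i u).2 ∈ Ioo (cc (i.2 + 1)) (cc i.2)) ∧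
      ∀ x, ∀ U ∈ 𝓝 (x, (0 : ℝ)), ∃ N, ∀ k, N ≤ k → ∃ u, P ((ofLex x).1, k) u ∈ U := by
  have h1 : ∀ i : O × ℕ, ∃ P : ℝ × ℝ → (O ×ₗ Ico (0 : ℝ) 1) × ℝ, IsOpenEmbedding P ∧
      range P = Ioo (toLex (i.1, ⟨0, le_rfl, one_pos⟩))
        (toLex (i.1, ⟨1 - cc (i.2 + 1), by linarith [cc_lt_one i.2], by linarith [cc_pos (i.2 + 1)]⟩))
        ×ˢ Ioo (cc (i.2 + 1)) (cc i.2) := by
    intro i
    obtain ⟨G, hG1, hG2⟩ := lr_box hc (y0 := toLex (i.1, ⟨0, le_rfl, one_pos⟩))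
      (y1 := toLex (i.1, ⟨1 - cc (i.2 + 1), by linarith [cc_lt_one i.2],
        by linarith [cc_pos (i.2 + 1)]⟩))
      ((lr_lt _ _).2 (Or.inr ⟨rfl, by simpa using cc_lt_one i.2⟩))
    obtain ⟨φ, hφ1, hφ2⟩ := box_real (cc_lt i.2)
    refine ⟨Prod.map G φ, (openEmb_of_range hG1 hG2).prodMap (openEmb_of_range hφ1 hφ2), ?_⟩
    rw [range_prodMap, hG2, hφ2]
  choose P hP1 hP2 using h1
  refine ⟨P, hP1, fun i u => ?_, fun x U hU => ?_⟩
  · have h : P i u ∈ range (P i) := ⟨u, rfl⟩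
    rw [hP2] at h
    refine ⟨?_, h.2⟩
    rcases (lr_lt _ _).1 h.1.1 with h3 | h3
    · rcases (lr_lt _ _).1 h.1.2 with h4 | h4
      · exact absurd (h3.trans h4) (lt_irrefl _)
      · exact h4.1
    · exact h3.1.symm
  · obtain ⟨A, hA, B, hB, hAB⟩ := mem_nhds_prod_iff.1 hU
    obtain ⟨ε, hε, hB2⟩ := Metric.mem_nhds_iff.1 hB
    have hx1 := (ofLex x).2.2.1
    have hx2 := (ofLex x).2.2.2
    obtain ⟨y, hy, hA2⟩ := exists_Ico_subset_of_mem_nhds hA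
      ⟨toLex ((ofLex x).1, ⟨(1 + (ofLex x).2) / 2, by linarith, by linarith⟩),
        (lr_lt _ _).2 (Or.inr ⟨rfl, by simp only [ofLex_toLex]; linarith⟩)⟩
    obtain ⟨s, hs1, hs2, hs3⟩ : ∃ s : ℝ, ((ofLex x).2 : ℝ) < s ∧ s < 1 ∧
        ((ofLex x).1 = (ofLex y).1 → s < (ofLex y).2) := by
      rcases (lr_lt _ _).1 hy with h | h
      · exact ⟨(1 + (ofLex x).2) / 2, by linarith, by linarith, fun h2 => absurd h2 h.ne⟩
      · have := (ofLex y).2.2.2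
        exact ⟨((ofLex y).2 + (ofLex x).2) / 2, by linarith [h.2], by linarith,
          fun _ => by linarith [h.2]⟩
    obtain ⟨N, hN⟩ := cc_small (lt_min hε (sub_pos.2 hs2))
    refine ⟨N, fun k hk => ?_⟩
    have h2 := lt_min_iff.1 (hN k hk)
    have h3 := cc_lt k
    have h4 := cc_pos (k + 1)
    have h5 : (toLex ((ofLex x).1, ⟨s, by linarith, hs2⟩), (cc (k + 1) + cc k) / 2) ∈
        range (P ((ofLex x).1, k)) := by
      rw [hP2]
      refine ⟨⟨(lr_lt _ _).2 (Or.inr ⟨rfl, ?_⟩), (lr_lt _ _).2 (Or.inr ⟨rfl, ?_⟩)⟩, ?_, ?_⟩ <;>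
        simp only [ofLex_toLex] <;> linarith [h2.2]
    obtain ⟨u, hu⟩ := h5
    refine ⟨u, hAB ?_⟩
    rw [hu]
    refine ⟨hA2 ⟨le_of_lt ((lr_lt _ _).2 (Or.inr ⟨rfl, hs1⟩)), (lr_lt _ _).2 ?_⟩, hB2 ?_⟩
    · rcases (lr_lt _ _).1 hy with h | h
      · exact Or.inl h
      · exact Or.inr ⟨h.1, hs3 h.1⟩
    · rw [Metric.mem_ball, Real.dist_eq, sub_zero, abs_lt]
      constructor <;> linarith [h2.1]

theorem exQ : ∃ Q : ℕ → ℝ × ℝ → ℝ × ℝ, (∀ m, IsOpenEmbedding (Q m)) ∧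
    (∀ m u, (Q m u).2 ∈ Ioo (cc (m + 1)) (cc m)) ∧
    ∀ V ∈ 𝓝 (0 : ℝ × ℝ), ∃ N, ∀ m, N ≤ m → ∀ u, Q m u ∈ V := by
  choose φ h1 h2 using fun m => box_real (cc_lt m)
  have h3 : ∀ m t, φ m t ∈ Ioo (cc (m + 1)) (cc m) := fun m t => h2 m ▸ mem_range_self t
  refine ⟨fun m => Prod.map (φ m) (φ m), fun m => (openEmb_of_range (h1 m) (h2 m)).prodMap
    (openEmb_of_range (h1 m) (h2 m)), fun m u => h3 m _, fun V hV => ?_⟩
  obtain ⟨ε, hε, hB2⟩ := Metric.mem_nhds_iff.1 hV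
  obtain ⟨N, hN⟩ := cc_small hε
  refine ⟨N, fun m hm u => hB2 ?_⟩
  have h4 := hN m hm
  have h5 := cc_pos (m + 1)
  rw [Metric.mem_ball, Prod.dist_eq, max_lt_iff]
  simp only [Prod.map_fst, Prod.map_snd, Prod.fst_zero, Prod.snd_zero, Real.dist_eq, sub_zero,
    abs_lt]
  refine ⟨⟨?_, ?_⟩, ?_, ?_⟩ <;> linarith [(h3 m u.1).1, (h3 m u.1).2, (h3 m u.2).1, (h3 m u.2).2]

theorem main {O : Type} [LinearOrder O] [WellFoundedLT O] [NoMaxOrder O] [Nonempty O]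
    (hc : ∀ a : O, (Iio a).Countable)
    [TopologicalSpace (O ×ₗ Ico (0 : ℝ) 1)] [OrderTopology (O ×ₗ Ico (0 : ℝ) 1)] :
    ∃ (M : Type) (_ : TopologicalSpace M) (z : M) (f : O ×ₗ Ico (0 : ℝ) 1 → M),
      (∀ p q : M, LE2 p → LE2 q → ∃ h : M ≃ₜ M, h p = q) ∧ LE2 z ∧ IsEmbedding f ∧
      (∀ x, (∃ y, y < x) → LE2 (f x)) ∧ ∀ x, NS (f x) z := by
  classical
  obtain ⟨P, hP1, hP2, hP3⟩ := exP hc
  obtain ⟨Q, hQ1, hQ2, hQ3⟩ := exQ
  obtain ⟨g0⟩ := ‹Nonempty O›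
  have hcJ : ∀ a : O ×ₗ ℕ, (Iio a).Countable := by
    intro a
    have h1 : (insert (ofLex a).1 (Iio (ofLex a).1) ×ˢ (Set.univ : Set ℕ)).Countable :=
      ((hc _).insert _).prod countable_univ
    refine (h1.image toLex).mono fun x hx =>
      mem_image_of_mem toLex (x := ofLex x) (mk_mem_prod ?_ (mem_univ _))
    rcases Prod.Lex.lt_iff.1 hx with h | h
    · exact Or.inr h
    · exact Or.inl h.1
  obtain ⟨e, he1, he2⟩ := coh hcJ
  have hlt : ∀ (a : O) (i : O × ℕ), i.1 < a → toLex i < toLex (a, 0) := fun a i h =>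
    Prod.Lex.lt_iff.2 (Or.inl h)
  let X := (O ×ₗ Ico (0 : ℝ) 1) × ℝ
  let R : ℕ → ℝ × ℝ → X := fun m => P (g0, 0) ∘ Q m
  have hR1 : ∀ m, IsOpenEmbedding (R m) := fun m => (hP1 _).comp (hQ1 m)
  have hR2 : ∀ m n u v, R m u = R n v → m = n ∧ u = v := by
    intro m n u v h
    have h1 : Q m u = Q n v := (hP1 _).injective h
    have h2 : m = n := cc_disj (hQ2 m u) (h1 ▸ hQ2 n v)
    subst h2
    exact ⟨rfl, (hQ1 m).injective h1⟩
  have hP4 : ∀ i j u v, P i u = P j v → i = j ∧ u = v := by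
    intro i j u v h
    have h2 : i = j := Prod.ext (by rw [← (hP2 i u).1, h, (hP2 j v).1])
      (cc_disj (hP2 i u).2 (h ▸ (hP2 j v).2))
    subst h2
    exact ⟨rfl, (hP1 i).injective h⟩
  obtain ⟨ι, ι1, ι2⟩ : ∃ ι : O → X → X ⊕ X,
      (∀ a i u, i.1 < a → ι a (P i u) = Sum.inr (R (e (toLex (a, 0)) (toLex i)) u)) ∧
      ∀ a y, (¬ ∃ i u, i.1 < a ∧ P i u = y) → ι a y = Sum.inl y := by
    refine ⟨fun a => Function.extend (fun p : {i : O × ℕ // i.1 < a} × (ℝ × ℝ) => P p.1 p.2)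
      (fun p => Sum.inr (R (e (toLex (a, 0)) (toLex p.1.1)) p.2)) Sum.inl, fun a i u h => ?_,
      fun a y h => ?_⟩
    · have hinj : Function.Injective (fun p : {i : O × ℕ // i.1 < a} × (ℝ × ℝ) => P p.1 p.2) := by
        intro p q hpq
        have := hP4 _ _ _ _ hpq
        exact Prod.ext (Subtype.ext this.1) this.2
      exact hinj.extend_apply _ _ (⟨i, h⟩, u)
    · refine Function.extend_apply' _ _ _ ?_
      rintro ⟨p, hp⟩
      exact h ⟨p.1.1, p.2, p.1.2, hp⟩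
  have ιinj : ∀ a, Function.Injective (ι a) := by
    intro a x y h
    by_cases hx : ∃ i u, i.1 < a ∧ P i u = x
    · by_cases hy : ∃ i u, i.1 < a ∧ P i u = y
      · obtain ⟨i, u, hi, rfl⟩ := hx
        obtain ⟨j, v, hj, rfl⟩ := hy
        rw [ι1 a i u hi, ι1 a j v hj] at h
        obtain ⟨h1, h2⟩ := hR2 _ _ _ _ (Sum.inr_injective h)
        have h3 : i = j := he1 _ (hlt a i hi) (hlt a j hj) h1
        rw [h2, h3]
      · obtain ⟨i, u, hi, rfl⟩ := hx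
        rw [ι1 a i u hi, ι2 a y hy] at h
        cases h
    · rw [ι2 a x hx] at h
      by_cases hy : ∃ i u, i.1 < a ∧ P i u = y
      · obtain ⟨j, v, hj, rfl⟩ := hy
        rw [ι1 a j v hj] at h
        cases h
      · rw [ι2 a y hy] at h
        exact Sum.inl_injective h
  have ι0 : ∀ a x, ι a (x, 0) = Sum.inl (x, 0) := by
    intro a x
    refine ι2 a _ ?_
    rintro ⟨i, u, -, h⟩
    have h1 := (hP2 i u).2.1
    rw [h] at h1
    exact absurd h1 (not_lt.2 (cc_pos _).le)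
  have hS : #X < #(Set (X ⊕ X)) := by
    refine lt_of_le_of_lt (Cardinal.mk_le_of_injective (Sum.inl_injective (β := X))) ?_
    rw [Cardinal.mk_set]
    exact Cardinal.cantor _
  obtain ⟨M, τ, ψ, hψ1, hψ2, hψ3⟩ := hom hS
  let G : O → (X ↪ Set (X ⊕ X)) := fun a =>
    ⟨fun y => {ι a y}, fun x y h => ιinj a (singleton_injective h)⟩
  let H : X ↪ Set (X ⊕ X) :=
    ⟨fun y => {Sum.inr y}, fun x y h => Sum.inr_injective (singleton_injective h)⟩
  have hval : ∀ G H x y, ψ G x = ψ H y → H y = G x := by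
    intro G H x y h
    obtain ⟨s, h1, h2, h3⟩ := (hψ2 _ _ _ _).1 h
    have := h3 _ h1
    simp only at this h2
    rwa [h2] at this
  have hopen : ∀ a : O, IsOpen {x : O ×ₗ Ico (0 : ℝ) 1 | (ofLex x).1 < a} := by
    intro a
    have : {x : O ×ₗ Ico (0 : ℝ) 1 | (ofLex x).1 < a} = Iio (toLex (a, ⟨0, le_rfl, one_pos⟩)) := by
      ext x
      simp only [mem_setOf_eq, mem_Iio, lr_lt, ofLex_toLex]
      constructor
      · exact Or.inl
      · rintro (h | h)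
        · exact h
        · exact absurd h.2 (not_lt.2 (ofLex x).2.2.1)
    rw [this]
    exact isOpen_Iio
  have hloc : ∀ x a b, (ofLex x).1 < a → (ofLex x).1 < b → ψ (G a) (x, 0) = ψ (G b) (x, 0) := by
    intro x a b ha hb
    have hU : IsOpen ((Prod.fst ⁻¹' {x : O ×ₗ Ico (0 : ℝ) 1 | (ofLex x).1 < min a b}) ∩
        ⋂ j ∈ {j | j < toLex (a, 0) ∧ j < toLex (b, 0) ∧ e (toLex (a, 0)) j ≠ e (toLex (b, 0)) j},
          {y : X | y.2 < cc ((ofLex j).2 + 1)}) :=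
      ((hopen _).preimage continuous_fst).inter ((he2 _ _).isOpen_biInter fun j _ =>
        isOpen_lt continuous_snd continuous_const)
    refine (hψ2 _ _ _ _).2 ⟨OpenPartialHomeomorph.ofSet _ hU, ⟨lt_min ha hb, ?_⟩, rfl, ?_⟩
    · exact mem_iInter₂.2 fun j _ => cc_pos _
    · rintro y ⟨hy1, hy2⟩
      change ({ι b y} : Set (X ⊕ X)) = {ι a y}
      congr 1
      by_cases h : ∃ i u, P i u = y
      · obtain ⟨i, u, rfl⟩ := h
        have h1 : i.1 < min a b := (hP2 i u).1 ▸ hy1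
        have h2 := lt_min_iff.1 h1
        rw [ι1 a i u h2.1, ι1 b i u h2.2]
        have h3 : e (toLex (a, 0)) (toLex i) = e (toLex (b, 0)) (toLex i) := by
          by_contra h4
          have h5 := mem_iInter₂.1 hy2 (toLex i) ⟨hlt _ _ h2.1, hlt _ _ h2.2, h4⟩
          exact absurd ((hP2 i u).2.1.trans h5) (lt_irrefl _)
        rw [h3]
      · rw [ι2 a y fun ⟨i, u, _, h1⟩ => h ⟨i, u, h1⟩, ι2 b y fun ⟨i, u, _, h1⟩ => h ⟨i, u, h1⟩]
  choose sc hsc using fun x : O ×ₗ Ico (0 : ℝ) 1 => exists_gt (ofLex x).1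
  have hcont : Continuous fun x => ψ (G (sc x)) (x, 0) := by
    refine continuous_iff_continuousAt.2 fun x => ?_
    have h1 : Continuous fun y => ψ (G (sc x)) (y, 0) :=
      (hψ1 _).continuous.comp (continuous_id.prodMk continuous_const)
    refine h1.continuousAt.congr ?_
    filter_upwards [(hopen (sc x)).mem_nhds (hsc x)] with y hy
    exact hloc y _ _ hy (hsc y)
  have hinj : ∀ a b x y, ψ (G a) (x, 0) = ψ (G b) y → y = (x, 0) := by
    intro a b x y h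
    have h1 : ι b y = ι a (x, 0) := singleton_injective (hval _ _ _ _ h)
    rw [ι0, ← ι0 b] at h1
    exact ιinj b h1
  refine ⟨M, τ, ψ H (P (g0, 0) 0), fun x => ψ (G (sc x)) (x, 0), hψ3,
    LE2.map ⟨_, hP1 _, 0, rfl⟩ (hψ1 H), ⟨⟨le_antisymm hcont.le_induced ?_⟩, ?_⟩, ?_, ?_⟩
  · intro V hV
    refine isOpen_induced_iff.2 ⟨⋃ a, ψ (G a) '' (V ×ˢ Set.univ),
      isOpen_iUnion fun a => (hψ1 _).isOpenMap _ (IsOpen.prod hV isOpen_univ), ?_⟩
    ext x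
    simp only [mem_preimage, mem_iUnion]
    constructor
    · rintro ⟨a, y, hy, h⟩
      rw [hinj _ _ _ _ h.symm] at hy
      exact hy.1
    · intro hx
      exact ⟨sc x, (x, 0), ⟨hx, mem_univ _⟩, rfl⟩
  · intro x y h
    exact (congrArg Prod.fst (hinj _ _ _ _ h)).symm
  · rintro x ⟨y, hy⟩
    have h1 : x < toLex (sc x, ⟨0, le_rfl, one_pos⟩) := (lr_lt _ _).2 (Or.inl (hsc x))
    obtain ⟨Γ, hG1, hG2⟩ := lr_box hc (hy.trans h1)
    refine LE2.map ⟨Prod.map Γ id, (openEmb_of_range hG1 hG2).prodMap IsOpenEmbedding.id, ?_⟩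
      (hψ1 _)
    rw [range_prodMap, hG2, range_id]
    exact ⟨⟨hy, h1⟩, mem_univ _⟩
  · intro x
    refine ⟨fun h => ?_, fun U V hU hV hxU hzV => ?_⟩
    · have h1 : Sum.inr (P (g0, 0) 0) = ι (sc x) (x, 0) := singleton_injective (hval _ _ _ _ h)
      rw [ι0] at h1
      cases h1
    · obtain ⟨N, hN⟩ := hP3 x _ ((hU.preimage (hψ1 (G (sc x))).continuous).mem_nhds hxU)
      obtain ⟨K, hK⟩ := hQ3 _ ((hV.preimage ((hψ1 H).continuous.comp
        (hP1 (g0, 0)).continuous)).mem_nhds hzV)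
      have hfin : ((fun k : ℕ => e (toLex (sc x, 0)) (toLex ((ofLex x).1, k))) ⁻¹' Iio K).Finite := by
        refine (finite_Iio K).preimage fun k _ l _ h => ?_
        have := he1 _ (hlt (sc x) (_, k) (hsc x)) (hlt (sc x) (_, l) (hsc x)) h
        exact congrArg (fun j => (ofLex j).2) this
      obtain ⟨k, hk⟩ := (hfin.union (finite_Iio N)).exists_notMem
      simp only [mem_union, mem_preimage, mem_Iio, not_or, not_lt] at hk
      obtain ⟨u, hu⟩ := hN k hk.2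
      refine ⟨_, hu, ?_⟩
      have h1 : ψ (G (sc x)) (P ((ofLex x).1, k) u) =
          ψ H (R (e (toLex (sc x, 0)) (toLex ((ofLex x).1, k))) u) := by
        refine (hψ2 _ _ _ _).2 ⟨((hP1 ((ofLex x).1, k)).toOpenPartialHomeomorph _).symm.trans
          ((hR1 (e (toLex (sc x, 0)) (toLex ((ofLex x).1, k)))).toOpenPartialHomeomorph _),
          by simp, ?_, ?_⟩
        · simp [IsOpenEmbedding.toOpenPartialHomeomorph_left_inv]
        · intro y hy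
          obtain ⟨v, rfl⟩ : y ∈ range (P ((ofLex x).1, k)) := by simpa using hy
          change ({Sum.inr _} : Set (X ⊕ X)) = {ι _ _}
          rw [ι1 _ _ _ (hsc x)]
          simp [IsOpenEmbedding.toOpenPartialHomeomorph_left_inv]
      rw [h1]
      exact hK _ hk.1 u

end Pool.Agent.H.MP_96a9b8_gt
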